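import Pool.Agent.W580.SH.Coset

/-! MP_f22417_co: an upper bound for the generalized Heller constant, linear in `Δ`. -/

namespace Pool.Agent.Results.MP_f22417_co.LinearBound

open Matrix

/-- the numbers of columns of integer matrices with `m` rows, pairwise distinct columns and largest
absolute `m × m` minor exactly `Δ` -/
def Sizes (Δ m : ℕ) : Set ℕ :=
  {n | ∃ A : Matrix (Fin m) (Fin n) ℤ, Function.Injective A.transpose ∧
    (∀ s : Fin m → Fin n, |(A.submatrix id s).det| ≤ (Δ : ℤ)) ∧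
    ∃ s : Fin m → Fin n, |(A.submatrix id s).det| = (Δ : ℤ)}

/-- the generalized Heller constant `h(Δ, m)` -/
noncomputable def heller (Δ m : ℕ) : ℕ := sSup (Sizes Δ m)

theorem nonempty {Δ m : ℕ} (hΔ : 1 ≤ Δ) (hm : 1 ≤ m) : (Sizes Δ m).Nonempty := by
  classical
  set d : Fin m → ℤ := fun i => if (i : ℕ) = 0 then (Δ : ℤ) else 1 with hd
  have hd1 : ∀ i, d i ≠ 0 := by
    intro i
    simp only [hd]
    split_ifs <;> omega
  have hdet : (Matrix.diagonal d).det = Δ := by
    rw [Matrix.det_diagonal, Finset.prod_eq_single (⟨0, hm⟩ : Fin m)]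
    · simp [hd]
    · intro b _ hb
      have : (b : ℕ) ≠ 0 := fun h => hb (Fin.ext h)
      simp [hd, this]
    · simp
  refine ⟨m, Matrix.diagonal d, ?_, ?_, ⟨id, ?_⟩⟩
  · intro i j hij
    by_contra hne
    have := congrFun hij i
    simp only [Matrix.transpose_apply] at this
    rw [Matrix.diagonal_apply_eq, Matrix.diagonal_apply_ne _ hne] at this
    exact hd1 i this
  · intro s
    by_cases hs : Function.Injective s
    · have hb : Function.Bijective s := Finite.injective_iff_bijective.1 hs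
      have : (Matrix.diagonal d).submatrix id s =
          (Matrix.diagonal d).submatrix id (Equiv.ofBijective s hb) := rfl
      rw [this, Matrix.det_permute', hdet, abs_mul]
      have h1 : |((Equiv.Perm.sign (Equiv.ofBijective s hb) : ℤˣ) : ℤ)| = 1 := by
        rcases Int.units_eq_one_or (Equiv.Perm.sign (Equiv.ofBijective s hb)) with h | h <;>
          simp [h]
      rw [Int.cast_id, h1, one_mul, abs_of_nonneg (by positivity)]
    · obtain ⟨i, j, hij, hne⟩ : ∃ i j, s i = s j ∧ i ≠ j := by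
        simpa [Function.Injective] using hs
      rw [Matrix.det_zero_of_column_eq hne (fun k => by simp [hij])]
      simp
  · rw [Matrix.submatrix_id_id, hdet]
    exact abs_of_nonneg (by positivity)

/-- For all `Δ, m ≥ 1` the maximum defining `h(Δ, m)` exists and
`h(Δ, m) ≤ (m ^ 2 + m) * Δ + 1`. -/
theorem result : ∀ Δ m : ℕ, 1 ≤ Δ → 1 ≤ m →
    IsGreatest (Sizes Δ m) (heller Δ m) ∧ heller Δ m ≤ (m ^ 2 + m) * Δ + 1 := by
  intro Δ m hΔ hm
  have hb : ∀ n ∈ Sizes Δ m, n ≤ (m ^ 2 + m) * Δ + 1 := by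
    rintro n ⟨A, hA, hle, s0, hs0⟩
    exact Pool.Agent.W580.SH.columns_le hΔ A hA hle s0 hs0
  have hmem : heller Δ m ∈ Sizes Δ m := Nat.sSup_mem (nonempty hΔ hm) ⟨_, hb⟩
  exact ⟨⟨hmem, fun n hn => le_csSup ⟨_, hb⟩ hn⟩, hb _ hmem⟩

end Pool.Agent.Results.MP_f22417_co.LinearBound
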